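import Pool.Agent.H97.ST.Targets

/-!
# Modules DUP and DDN: geodesics disjoint above or below a level
-/

set_option autoImplicit false

open MeasureTheory ProbabilityTheory Filter Topology
open scoped ENNReal

namespace Pool.Agent.H74.ST

open Pool.Agent.H99.NS Pool.Agent.H22.LPP Pool.Agent.H97.NF Pool.Agent.H97.ST
open Pool.Agent.H95.INS (Near)

theorem hv_pos (a : ℕ) : 0 < hv a := by
  unfold hv
  positivity

theorem reach_oe (k : ℕ) : Reach (oK k) (eK k) := by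
  have hP : (0 : ℤ) < 64 ^ (k - 1) := by positivity
  unfold oK eK
  refine ⟨?_, ?_⟩
  · simp only
    rw [sub_zero, abs_zero]
    linarith
  · exact ⟨32 * 64 ^ (k - 1), by simp only; ring⟩

theorem lk_conn (h1 : B_LAM) (k : ℕ) (ω : Env) : Conn (oK k) (eK k) (Lk k ω) :=
  (h1 ω _ _ (reach_oe k)).1.1

theorem lk_wt (h1 : B_LAM) (k : ℕ) (ω : Env) :
    wt ω (oK k).1 (eK k).1 (Lk k ω) = T ω (oK k) (eK k) :=
  (h1 ω _ _ (reach_oe k)).1.2

/-- lower part -/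
theorem low (h1 : B_LAM) (k a h : ℕ) (A B : Env) (s : ℤ) (g : ℝ) (hs1 : (oK k).1 ≤ s)
    (hs2 : s ≤ (eK k).1) (hlow : RLow k B s a h)
    (hAB : ∀ t z : ℤ, s - hv a ≤ t → t ≤ s → |z - Lk k B s| ≤ 2 ^ h * 16 ^ a →
      A (t, z) = B (t, z))
    (hcl : ∀ v : ℤ, Grid a v → |v - Lk k B s| ≤ 2 ^ h * 16 ^ a →
      |T A (oK k) (s - hv a, v) - T B (oK k) (s - hv a, v)| ≤ g) :
    T B (oK k) (s, Lk k B s) ≤ T A (oK k) (s, Lk k B s) + 2 ^ h * 4 ^ a + g := by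
  obtain ⟨v, π, hg, hvv, hr, hc, hπ, hT⟩ := hlow
  have hp : (0 : ℤ) < hv a := hv_pos a
  have e1 : wt B (s - hv a) s π = wt A (s - hv a) s π :=
    wt_congr (fun r hr1 hr2 => (hAB r (π r) hr1.le hr2 (hπ r hr1.le hr2)).symm)
  have e2 : wt A (s - hv a) s π ≤ T A (s - hv a, v) (s, Lk k B s) :=
    le_T A (u := (s - hv a, v)) (v := (s, Lk k B s)) (by simp only; linarith) hc
  have e3 := T_superadd A hr (hc.reach (by simp only; linarith))
  have e4 := (abs_le.1 (hcl v hg hvv)).1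
  linarith

/-- upper part -/
theorem upp (h1 : B_LAM) (k a h : ℕ) (A B : Env) (s : ℤ) (g : ℝ) (hs1 : (oK k).1 ≤ s)
    (hs2 : s ≤ (eK k).1) (hup : RUp k B s a h)
    (hAB : ∀ t z : ℤ, s ≤ t → t ≤ s + hv a → |z - Lk k B s| ≤ 2 ^ h * 16 ^ a →
      A (t, z) = B (t, z))
    (hcl : ∀ v : ℤ, Grid a v → |v - Lk k B s| ≤ 2 ^ h * 16 ^ a →
      |T A (s + hv a, v) (eK k) - T B (s + hv a, v) (eK k)| ≤ g) :
    T B (s, Lk k B s) (eK k) ≤ T A (s, Lk k B s) (eK k) + 2 ^ h * 4 ^ a + g := by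
  obtain ⟨v, π, hg, hvv, hr, hc, hπ, hT⟩ := hup
  have hp : (0 : ℤ) < hv a := hv_pos a
  have e1 : wt B s (s + hv a) π = wt A s (s + hv a) π :=
    wt_congr (fun r hr1 hr2 => (hAB r (π r) hr1.le hr2 (hπ r hr1.le hr2)).symm)
  have e2 : wt A s (s + hv a) π ≤ T A (s, Lk k B s) (s + hv a, v) :=
    le_T A (u := (s, Lk k B s)) (v := (s + hv a, v)) (by simp only; linarith) hc
  have e3 := T_superadd A (hc.reach (by simp only; linarith)) hr
  have e4 := (abs_le.1 (hcl v hg hvv)).1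
  linarith

/-- the surgery: `A`-geodesic to the `B`-geodesic at the level `j₁`, the `B`-geodesic up to the
level `j₂`, then an `A`-geodesic -/
theorem surgery (h1 : B_LAM) (k : ℕ) (A B : Env) (j₁ j₂ : ℤ) (g : ℝ) (hg : 0 ≤ g)
    (ho : (oK k).1 ≤ j₁) (hj : j₁ ≤ j₂) (he : j₂ ≤ (eK k).1)
    (hAB : ∀ t, j₁ < t → t ≤ j₂ → A (t, Lk k B t) = B (t, Lk k B t))
    (ht : |T A (oK k) (eK k) - T B (oK k) (eK k)| ≤ g / 4)
    (hlo : T B (oK k) (j₁, Lk k B j₁) ≤ T A (oK k) (j₁, Lk k B j₁) + g / 4)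
    (hup : T B (j₂, Lk k B j₂) (eK k) ≤ T A (j₂, Lk k B j₂) (eK k) + g / 4) :
    ∃ γ, Near A (oK k) (eK k) g γ ∧ ∀ t, j₁ ≤ t → t ≤ j₂ → γ t = Lk k B t := by
  have hc := lk_conn h1 k B
  have hw := lk_wt h1 k B
  have c1 : Conn (oK k) (j₁, Lk k B j₁) (Lk k B) := hc.left (by linarith)
  have c3 : Conn (j₂, Lk k B j₂) (eK k) (Lk k B) := hc.right (by linarith)
  have c2 : Conn (j₁, Lk k B j₁) (j₂, Lk k B j₂) (Lk k B) := hc.restrict ho he
  obtain ⟨γ1, d1, w1, -⟩ := T_attained A (c1.reach ho)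
  obtain ⟨γ3, d3, w3, -⟩ := T_attained A (c3.reach he)
  have d12 := conn_concat (u := oK k) (v := (j₁, Lk k B j₁)) (w := (j₂, Lk k B j₂)) ho hj d1 c2
  have d := conn_concat (u := oK k) (v := (j₂, Lk k B j₂)) (w := eK k) (ho.trans hj) he d12 d3
  refine ⟨_, ⟨d, ?_⟩, ?_⟩
  · rw [wt_add A ho (hj.trans he), wt_add A hj he]
    have e1 : wt A (oK k).1 j₁ (fun r => if r ≤ j₂ then (if r ≤ j₁ then γ1 r else Lk k B r)
        else γ3 r) = T A (oK k) (j₁, Lk k B j₁) := by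
      rw [w1]
      apply wt_congr
      intro r _ hr
      rw [if_pos (by omega), if_pos (by omega)]
    have e2 : wt A j₁ j₂ (fun r => if r ≤ j₂ then (if r ≤ j₁ then γ1 r else Lk k B r)
        else γ3 r) = wt B j₁ j₂ (Lk k B) := by
      apply wt_congr
      intro r hr1 hr
      rw [if_pos (by omega), if_neg (by omega)]
      exact hAB r hr1 hr
    have e3 : wt A j₂ (eK k).1 (fun r => if r ≤ j₂ then (if r ≤ j₁ then γ1 r else Lk k B r)
        else γ3 r) = T A (j₂, Lk k B j₂) (eK k) := by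
      rw [w3]
      apply wt_congr
      intro r hr1 hr
      rw [if_neg (by omega)]
    simp only at e1 e2 e3 ⊢
    rw [e1, e2, e3]
    rw [wt_add B ho (hj.trans he), wt_add B hj he] at hw
    have f1 := le_T B (u := oK k) (v := (j₁, Lk k B j₁)) ho c1
    have f3 := le_T B (u := (j₂, Lk k B j₂)) (v := eK k) he c3
    simp only at f1 f3
    have f4 := (abs_le.1 ht).2
    linarith
  · intro t ht1 ht2
    simp only
    rw [if_pos ht2]
    split_ifs with h5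
    · have : t = j₁ := by omega
      rw [this]
      exact d1.2.2
    · rfl

theorem tol (i h : ℕ) (hh : 1 ≤ h) (hi : 5 * h + 1 ≤ i) :
    (2 : ℝ) ^ h * 4 ^ (i - 5 * h) ≤ gi i h / 8 := by
  obtain ⟨a, ha⟩ : ∃ a, i = a + 5 * h := ⟨i - 5 * h, by omega⟩
  have e1 : i - 5 * h = a := by omega
  have e2 : (4 : ℝ) ^ (i - 1) * 4 = 4 ^ a * (2 ^ h) ^ 10 := by
    rw [← pow_succ, show i - 1 + 1 = a + 5 * h by omega, pow_add]
    congr 1
    rw [← pow_mul, show (4 : ℝ) = 2 ^ 2 by norm_num, ← pow_mul]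
    congr 1
    ring
  have e3 : (4 : ℝ) ^ h = (2 ^ h) ^ 2 := by
    rw [← pow_mul, show (4 : ℝ) = 2 ^ 2 by norm_num, ← pow_mul]
    congr 1
    ring
  unfold gi
  rw [e1, e3]
  have hx : (2 : ℝ) ≤ 2 ^ h := by
    calc (2 : ℝ) = 2 ^ 1 := by norm_num
      _ ≤ 2 ^ h := pow_le_pow_right₀ (by norm_num) hh
  have e4 : (4 : ℝ) ^ (i - 1) = 4 ^ a * (2 ^ h) ^ 10 / 4 := by linarith
  rw [e4]
  generalize (2 : ℝ) ^ h = x at hx
  have hp : (0 : ℝ) < 4 ^ a := by positivity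
  generalize (4 : ℝ) ^ a = p at hp
  have hx0 : 0 < x := by linarith
  have e5 : p * x ^ 10 / 4 / x ^ 2 / 8 = p * x * (x ^ 7 / 32) := by
    field_simp
    ring
  rw [e5]
  have e6 : 1 ≤ x ^ 7 / 32 := by
    have : (2 : ℝ) ^ 7 ≤ x ^ 7 := pow_le_pow_left₀ (by norm_num) hx 7
    rw [le_div_iff₀ (by norm_num)]
    linarith
  calc x * p = p * x * 1 := by ring
    _ ≤ p * x * (x ^ 7 / 32) := by
      apply mul_le_mul_of_nonneg_left e6
      positivity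

theorem gi_nonneg (i h : ℕ) : 0 ≤ gi i h := by
  unfold gi
  positivity

/-- geometry: a site near the `B`-geodesic is in the box -/
theorem inbox (k i h : ℕ) (A B : Env) (j m : ℤ) (hh : 1 ≤ h)
    (hx : Lk k A j ∈ Win i m) (hy : |Lk k B j - Lk k A j| ≤ 4 * 2 ^ h * 16 ^ i)
    (hd : Rdis k B j i h) (s z : ℤ) (hs : 2 * |s - j| ≤ 64 ^ i)
    (hz : |z - Lk k B s| ≤ 2 ^ h * 16 ^ i) : |z - m * 16 ^ i| ≤ Rm h i := by
  have h3 := hd s hs
  obtain ⟨h4, h5⟩ := hx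
  have h2 : (2 : ℤ) ≤ 2 ^ h := by
    calc (2 : ℤ) = 2 ^ 1 := by norm_num
      _ ≤ 2 ^ h := pow_le_pow_right₀ (by norm_num) hh
  have hp : (0 : ℤ) < 16 ^ i := by positivity
  unfold Rm
  rw [abs_le] at *
  have e1 : (m + 1) * (16 : ℤ) ^ i = m * 16 ^ i + 16 ^ i := by ring
  have e2 : 2 * (16 : ℤ) ^ i ≤ 2 ^ h * 16 ^ i := mul_le_mul_of_nonneg_right h2 hp.le
  have e3 : 4 * (2 : ℤ) ^ h * 16 ^ i = 4 * (2 ^ h * 16 ^ i) := by ring
  have e4 : 8 * (2 : ℤ) ^ h * 16 ^ i = 8 * (2 ^ h * 16 ^ i) := by ring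
  rw [e3] at hy
  rw [e1] at h5
  rw [e4]
  generalize (2 : ℤ) ^ h * 16 ^ i = P at *
  generalize m * (16 : ℤ) ^ i = M at *
  generalize (16 : ℤ) ^ i = p at *
  constructor
  · linarith [h3.1, h3.2, hy.1, hy.2, hz.1, hz.2]
  · linarith [h3.1, h3.2, hy.1, hy.2, hz.1, hz.2]

theorem box_of (j : ℤ) (i : ℕ) (m R t z : ℤ) (ht : 2 * |t - j| ≤ 64 ^ i)
    (hz : |z - m * 16 ^ i| ≤ R) : ((t, z) : Site) ∈ BoxW j i m R := by
  have hp : (0 : ℤ) < 16 ^ i := by positivity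
  rw [abs_le] at hz
  refine ⟨ht, ?_, ?_⟩
  · simp only
    linarith [hz.1]
  · simp only
    have : (m + 1) * (16 : ℤ) ^ i = m * 16 ^ i + 16 ^ i := by ring
    rw [this]
    linarith [hz.2]

theorem pows (k i h : ℕ) (hh : 1 ≤ h) (hi : 5 * h + 1 ≤ i) (hk : i + 1 ≤ k) :
    hv (i - 5 * h) ≤ 64 ^ (i - 1) ∧ (64 : ℤ) ^ i = 64 * 64 ^ (i - 1) ∧
      (64 : ℤ) ^ (i - 1) ≤ 64 ^ (k - 1) ∧ (16 : ℤ) ^ (i - 5 * h) ≤ 16 ^ i := by
  refine ⟨?_, ?_,
    pow_le_pow_right₀ (by norm_num) (by omega), pow_le_pow_right₀ (by norm_num) (by omega)⟩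
  · have e1 : (64 : ℤ) ^ (i - 5 * h - 1 + 1) ≤ 64 ^ (i - 1) :=
      pow_le_pow_right₀ (by norm_num) (by omega)
    have e2 : (0 : ℤ) < 64 ^ (i - 5 * h - 1) := by positivity
    unfold hv
    rw [pow_succ] at e1
    linarith
  · rw [← pow_succ']
    congr 1
    omega

theorem pf_DUP (h1 : B_LAM) : T_DUP := by
  intro k i h A B j m hh hi hk hj hx hy hbox hcl hreg hne
  obtain ⟨p1, p2, p3, p4⟩ := pows k i h hh hi hk
  have hp0 : (0 : ℤ) < hv (i - 5 * h) := hv_pos _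
  have hp1 : (0 : ℤ) < 64 ^ (i - 1) := by positivity
  have hph : (0 : ℤ) < 2 ^ h := by positivity
  unfold Mid at hj
  have hjj := abs_le.1 hj
  have hlt : ∀ z s : ℤ, |z - Lk k B s| ≤ 2 ^ h * 16 ^ (i - 5 * h) →
      |z - Lk k B s| ≤ 2 ^ h * 16 ^ i := by
    intro z s hz
    exact hz.trans (mul_le_mul_of_nonneg_left p4 hph.le)
  have hA : ∀ s t z : ℤ, 2 * |s - j| ≤ 64 ^ i → 2 * |t - j| ≤ 64 ^ i →
      |z - Lk k B s| ≤ 2 ^ h * 16 ^ i → A (t, z) = B (t, z) := by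
    intro s t z hs ht hz
    exact hbox _ (box_of j i m _ t z ht (inbox k i h A B j m hh hx hy hreg.d s z hs hz))
  have ho : (oK k).1 = -(32 * 64 ^ (k - 1)) := rfl
  have he : (eK k).1 = 32 * 64 ^ (k - 1) := rfl
  have htol := tol i h hh hi
  have e0 : (0 : ℤ) ≤ 2 ^ h * 16 ^ i := by positivity
  have hL := low h1 k (i - 5 * h) h A B j (gi i h / 8) (by rw [ho]; linarith)
    (by rw [he]; linarith) hreg.l0
    (fun t z ht1 ht2 hz => hA j t z (by simp) (by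
      rw [abs_of_nonpos (by linarith)]
      linarith) (hlt z j hz))
    (fun v hv1 hv2 => hcl.lo (j - hv (i - 5 * h)) (Or.inl rfl) v hv1
      (inbox k i h A B j m hh hx hy hreg.d j v (by simp) (hlt v j hv2)))
  have hs2 : 2 * |j + 64 ^ (i - 1) - j| ≤ 64 ^ i := by
    rw [add_sub_cancel_left, abs_of_pos hp1]
    linarith
  have hR := upp h1 k (i - 5 * h) h A B (j + 64 ^ (i - 1)) (gi i h / 8) (by rw [ho]; linarith)
    (by rw [he]; linarith) hreg.u1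
    (fun t z ht1 ht2 hz => hA (j + 64 ^ (i - 1)) t z hs2 (by
      rw [abs_of_nonneg (by linarith)]
      linarith) (hlt z _ hz))
    (fun v hv1 hv2 => hcl.up (j + 64 ^ (i - 1) + hv (i - 5 * h)) (Or.inr rfl) v hv1
      (inbox k i h A B j m hh hx hy hreg.d (j + 64 ^ (i - 1)) v hs2 (hlt v _ hv2)))
  obtain ⟨γ, h5, h6⟩ := surgery h1 k A B j (j + 64 ^ (i - 1)) (gi i h) (gi_nonneg i h)
    (by rw [ho]; linarith) (by linarith) (by rw [he]; linarith)
    (fun t ht1 ht2 => hA t t _ (by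
      rw [abs_of_nonneg (by linarith)]
      linarith) (by
      rw [abs_of_nonneg (by linarith)]
      linarith) (by rw [sub_self, abs_zero]; exact e0))
    hcl.t (by linarith) (by linarith)
  exact ⟨γ, h5, fun t ht1 ht2 => by
    rw [h6 t ht1 ht2]
    exact (hne t ht1 ht2).symm⟩

theorem pf_DDN (h1 : B_LAM) : T_DDN := by
  intro k i h A B j m hh hi hk hj hx hy hbox hcl hreg hne
  obtain ⟨p1, p2, p3, p4⟩ := pows k i h hh hi hk
  have hp0 : (0 : ℤ) < hv (i - 5 * h) := hv_pos _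
  have hp1 : (0 : ℤ) < 64 ^ (i - 1) := by positivity
  have hph : (0 : ℤ) < 2 ^ h := by positivity
  unfold Mid at hj
  have hjj := abs_le.1 hj
  have hlt : ∀ z s : ℤ, |z - Lk k B s| ≤ 2 ^ h * 16 ^ (i - 5 * h) →
      |z - Lk k B s| ≤ 2 ^ h * 16 ^ i := by
    intro z s hz
    exact hz.trans (mul_le_mul_of_nonneg_left p4 hph.le)
  have hA : ∀ s t z : ℤ, 2 * |s - j| ≤ 64 ^ i → 2 * |t - j| ≤ 64 ^ i →
      |z - Lk k B s| ≤ 2 ^ h * 16 ^ i → A (t, z) = B (t, z) := by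
    intro s t z hs ht hz
    exact hbox _ (box_of j i m _ t z ht (inbox k i h A B j m hh hx hy hreg.d s z hs hz))
  have ho : (oK k).1 = -(32 * 64 ^ (k - 1)) := rfl
  have he : (eK k).1 = 32 * 64 ^ (k - 1) := rfl
  have htol := tol i h hh hi
  have e0 : (0 : ℤ) ≤ 2 ^ h * 16 ^ i := by positivity
  have hR := upp h1 k (i - 5 * h) h A B j (gi i h / 8) (by rw [ho]; linarith)
    (by rw [he]; linarith) hreg.u0
    (fun t z ht1 ht2 hz => hA j t z (by simp) (by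
      rw [abs_of_nonneg (by linarith)]
      linarith) (hlt z j hz))
    (fun v hv1 hv2 => hcl.up (j + hv (i - 5 * h)) (Or.inl rfl) v hv1
      (inbox k i h A B j m hh hx hy hreg.d j v (by simp) (hlt v j hv2)))
  have hs2 : 2 * |j - 64 ^ (i - 1) - j| ≤ 64 ^ i := by
    rw [abs_of_nonpos (by linarith)]
    linarith
  have hL := low h1 k (i - 5 * h) h A B (j - 64 ^ (i - 1)) (gi i h / 8) (by rw [ho]; linarith)
    (by rw [he]; linarith) hreg.l1
    (fun t z ht1 ht2 hz => hA (j - 64 ^ (i - 1)) t z hs2 (by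
      rw [abs_of_nonpos (by linarith)]
      linarith) (hlt z _ hz))
    (fun v hv1 hv2 => hcl.lo (j - 64 ^ (i - 1) - hv (i - 5 * h)) (Or.inr rfl) v hv1
      (inbox k i h A B j m hh hx hy hreg.d (j - 64 ^ (i - 1)) v hs2 (hlt v _ hv2)))
  obtain ⟨γ, h5, h6⟩ := surgery h1 k A B (j - 64 ^ (i - 1)) j (gi i h) (gi_nonneg i h)
    (by rw [ho]; linarith) (by linarith) (by rw [he]; linarith)
    (fun t ht1 ht2 => hA t t _ (by
      rw [abs_of_nonpos (by linarith)]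
      linarith) (by
      rw [abs_of_nonpos (by linarith)]
      linarith) (by rw [sub_self, abs_zero]; exact e0))
    hcl.t (by linarith) (by linarith)
  exact ⟨γ, h5, fun t ht1 ht2 => by
    rw [h6 t ht1 ht2]
    exact (hne t ht1 ht2).symm⟩

end Pool.Agent.H74.ST
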