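import Pool.Agent.H74.ST.STP

/-!
# Module LST: last step
-/

set_option autoImplicit false

open MeasureTheory ProbabilityTheory Filter Topology
open scoped ENNReal

namespace Pool.Agent.H74.STP

open Pool.Agent.H99.NS Pool.Agent.H22.LPP Pool.Agent.H97.NF Pool.Agent.H97.ST
open Pool.Agent.H95.INS (Near)

theorem glue_univ (out E : PEnv) : glue Set.univ out E = E := by
  funext x
  exact glue_of_mem _ _ (Set.mem_univ x)

theorem pf_LST (hW : T_WIN) (hA : T_AEQ) (hD : T_DET7) (hC : T_CLO) (hT : T_TRF)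
    (hL : B_LAMM) : T_LST := by
  intro q hq0 hq1 iNT iREG iTOP
  obtain ⟨C1, c1, c1', s1, k1, hC1, hc1, hc1', hNT⟩ := iNT
  obtain ⟨C2, c2', s2, k2, hC2, hc2', hRG⟩ := iREG
  obtain ⟨C5, c5', k5, hC5, hc5', hTP⟩ := iTOP
  obtain ⟨C4, hC4, hCL⟩ := hC q hq0 hq1
  refine ⟨min c1 (1 / 2), max s1 s2 + 1, by positivity, ?_⟩
  intro s₂ hs₂
  refine ⟨C5 + 4 * 16 ^ (2 * s₂) * C4 + 3 * C1 + 81 * C2, by positivity, ?_⟩
  intro h s hh hs
  set cm : ℝ := min (min c1' c2') (min c5' (1 / 300)) with hcm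
  have hcm0 : 0 < cm := by positivity
  obtain ⟨k6, hk6⟩ := exists_nat_ge ((h : ℝ) / cm)
  refine ⟨max (max (max k1 k2) (max k5 (60 + 2 * s))) k6, ?_⟩
  intro k hk j hj r hr0 hr
  have hkk : (0 : ℝ) ≤ k := Nat.cast_nonneg k
  have hhc : (h : ℝ) ≤ cm * k := by
    rw [div_le_iff₀ hcm0] at hk6
    have h6 : (k6 : ℝ) ≤ k := by
      have : k6 ≤ k := (le_max_right _ _).trans hk
      exact_mod_cast this
    nlinarith
  have a1 : (h : ℝ) ≤ c1' * k := hhc.trans (mul_le_mul_of_nonneg_right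
    ((min_le_left _ _).trans (min_le_left _ _)) hkk)
  have a2 : (h : ℝ) ≤ c2' * k := hhc.trans (mul_le_mul_of_nonneg_right
    ((min_le_left _ _).trans (min_le_right _ _)) hkk)
  have a3 : (h : ℝ) ≤ c5' * k := hhc.trans (mul_le_mul_of_nonneg_right
    ((min_le_right _ _).trans (min_le_left _ _)) hkk)
  have a4 : (h : ℝ) ≤ 1 / 300 * k := hhc.trans (mul_le_mul_of_nonneg_right
    ((min_le_right _ _).trans (min_le_right _ _)) hkk)
  have h300 : 300 * h ≤ k := by
    have : (300 : ℝ) * h ≤ k := by linarith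
    exact_mod_cast this
  have h60 : 60 + 2 * s ≤ k := by omega
  obtain ⟨i, hi⟩ : ∃ i, i = k - s := ⟨_, rfl⟩
  rw [← hi]
  have hki : k = i + s := by omega
  have hik1 : i + 1 ≤ k := by omega
  have hi20 : k ≤ 20 * i := by omega
  have hi5 : 5 * h + 1 ≤ i := by omega
  have hr1 := r_le_one hr0 k h hr
  set ρ : ℤ → Site → ℝ := fun m => rhoS r (BoxW j i m (Rm h i))ᶜ with hρ
  have hcore := core hA hD hT hL q hC1 hC2 hNT hRG k (by omega) (by omega) j hj i h hi20
    (by omega) (by omega) hh a1 a2 h300 (by omega) hik1 ρ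
    (fun m x hx => rhoS_zero (fun hx' => hx' hx))
  refine hcore.trans ?_
  have hmL : Measurable (fun ω => Lk k ω j) := (hL (oK k) (eK k) j).2.1
  have hj20 : |j| ≤ 20 * 64 ^ (k - 1) := by
    have hp : (0 : ℤ) < 64 ^ (k - 1) := by positivity
    unfold Mid at hj
    linarith
  -- E1
  set β : ℝ := C4 * (r * (((eK k).1 - (oK k).1 : ℤ) : ℝ)) * 16 ^ (8 * h) / 16 ^ i with hβ
  have hlen : (((eK k).1 - (oK k).1 : ℤ) : ℝ) = 64 ^ k := by
    have e1 : (oK k).1 = -(32 * 64 ^ (k - 1)) := rfl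
    have e2 : (eK k).1 = 32 * 64 ^ (k - 1) := rfl
    rw [e1, e2]
    obtain ⟨k', hk'⟩ : ∃ k', k = k' + 1 := ⟨k - 1, by omega⟩
    rw [hk', Nat.add_sub_cancel, pow_succ]
    push_cast
    ring
  have hoe : (oK k).1 ≤ (eK k).1 := by
    have e1 : (oK k).1 = -(32 * 64 ^ (k - 1)) := rfl
    have e2 : (eK k).1 = 32 * 64 ^ (k - 1) := rfl
    have hp : (0 : ℤ) < 64 ^ (k - 1) := by positivity
    rw [e1, e2]
    linarith
  have hclose : ∀ m : ℤ, PN q (ρ m) {E | ¬ Close k (eA E) (eB E) j i h m} ≤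
      ENNReal.ofReal β := by
    intro m
    have := hCL k i h j m hh hi5 hik1 hj Set.univ (fun _ => 0) (ρ m) r (oK k).1 (eK k).1
      (fun x => rhoS_props r hr0 hr1 _ x) hoe (fun x _ h1 h2 => ⟨h1, h2⟩)
    simp only [glue_univ] at this
    exact this
  set N : ℤ := 2 ^ h * 16 ^ s with hN
  have hN1 : 1 ≤ N := by
    have : (0 : ℤ) < N := by positivity
    linarith
  have hsplit : ∀ m : ℤ, PN q (ρ m)
      {E | Lk k (eA E) j ∈ Win i m ∧ ¬ Close k (eA E) (eB E) j i h m} ≤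
      PN q (ρ m) {E | Lk k (eA E) j ∈ Win i m ∧ 2 ^ h * 16 ^ k < |Lk k (eA E) j|} +
      (if m ∈ Finset.Icc (-N - 1) N then ENNReal.ofReal β else 0) := by
    intro m
    split_ifs with hm
    · refine (measure_mono ?_).trans ((measure_union_le {E | Lk k (eA E) j ∈ Win i m ∧
        2 ^ h * 16 ^ k < |Lk k (eA E) j|} {E | ¬ Close k (eA E) (eB E) j i h m}).trans
        (add_le_add le_rfl (hclose m)))
      intro E hE
      exact Or.inr hE.2
    · rw [add_zero]
      apply measure_mono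
      rintro E ⟨hE1, hE2⟩
      refine ⟨hE1, ?_⟩
      by_contra hcon
      push Not at hcon
      apply hm
      obtain ⟨w1, w2⟩ := hE1
      rw [abs_le] at hcon
      have hp : (0 : ℤ) < 16 ^ i := by positivity
      have e1 : (2 : ℤ) ^ h * 16 ^ k = N * 16 ^ i := by
        rw [hN, hki, pow_add]
        ring
      rw [e1] at hcon
      rw [Finset.mem_Icc]
      constructor
      · have : (-N) * 16 ^ i < (m + 1) * 16 ^ i := by linarith [hcon.1]
        have := lt_of_mul_lt_mul_right this hp.le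
        omega
      · have : m * 16 ^ i ≤ N * 16 ^ i := by linarith [hcon.2]
        exact le_of_mul_le_mul_right this hp
  have hfin : ∑' m : ℤ, (if m ∈ Finset.Icc (-N - 1) N then ENNReal.ofReal β else 0) ≤
      ENNReal.ofReal (4 * N * β) := by
    rw [tsum_eq_sum (s := Finset.Icc (-N - 1) N) (fun m hm => if_neg hm)]
    rw [Finset.sum_congr rfl (fun m hm => if_pos hm), Finset.sum_const, Int.card_Icc,
      nsmul_eq_mul]
    have e1 : (((N + 1 - (-N - 1)).toNat : ℕ) : ℝ≥0∞) = ENNReal.ofReal ((2 * N + 2 : ℤ) : ℝ) := by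
      rw [show N + 1 - (-N - 1) = 2 * N + 2 by ring]
      rw [ENNReal.ofReal, Real.toNNReal_of_nonneg (by positivity)]
      norm_cast
    rw [e1, ← ENNReal.ofReal_mul (by positivity)]
    apply ENNReal.ofReal_le_ofReal
    have hβ0 : 0 ≤ β := by
      rw [hβ, hlen]
      positivity
    apply mul_le_mul_of_nonneg_right _ hβ0
    have : (1 : ℝ) ≤ N := by exact_mod_cast hN1
    push_cast
    linarith
  have hE1 : ∑' m : ℤ, PN q (ρ m)
      {E | Lk k (eA E) j ∈ Win i m ∧ ¬ Close k (eA E) (eB E) j i h m} ≤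
      ENNReal.ofReal (C5 * (1 / 2) ^ h + 4 * N * β) := by
    refine (ENNReal.tsum_le_tsum hsplit).trans ?_
    rw [ENNReal.tsum_add]
    have b1 : ∑' m : ℤ, PN q (ρ m) {E | Lk k (eA E) j ∈ Win i m ∧
        2 ^ h * 16 ^ k < |Lk k (eA E) j|} ≤ ENNReal.ofReal (C5 * (1 / 2) ^ h) := by
      refine ((hT q (fun ω => Lk k ω j) (fun ω => 2 ^ h * 16 ^ k < |Lk k ω j|) i h ρ
        hmL).2).trans ?_
      refine (hTP k (by omega) j hj20 h a3).trans ?_
      apply ENNReal.ofReal_le_ofReal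
      exact mul_le_mul_of_nonneg_left (pow_le_pow_left₀ (by norm_num) (by norm_num) h) hC5.le
    refine (add_le_add b1 hfin).trans ?_
    have hβ0 : 0 ≤ β := by
      rw [hβ, hlen]
      positivity
    have : (1 : ℝ) ≤ N := by exact_mod_cast hN1
    rw [← ENNReal.ofReal_add (by positivity) (by positivity)]
  have hβ2 : 4 * N * β ≤ 4 * 16 ^ (2 * s₂) * C4 * (1 / 2) ^ h := by
    rw [hβ, hlen, hN]
    have e4 : r * 64 ^ k ≤ 16 ^ k / 16 ^ (40 * h) := by
      rw [le_div_iff₀ (by positivity)]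
      exact hr
    have hp16 : (0 : ℝ) < 16 ^ i := by positivity
    calc 4 * (((2 : ℤ) ^ h * 16 ^ s : ℤ) : ℝ) * (C4 * (r * 64 ^ k) * 16 ^ (8 * h) / 16 ^ i)
        = 4 * (2 ^ h * 16 ^ s) * C4 * 16 ^ (8 * h) / 16 ^ i * (r * 64 ^ k) := by
          push_cast
          ring
      _ ≤ 4 * (2 ^ h * 16 ^ s) * C4 * 16 ^ (8 * h) / 16 ^ i * (16 ^ k / 16 ^ (40 * h)) :=
          mul_le_mul_of_nonneg_left e4 (by positivity)
      _ = 4 * 16 ^ (2 * s₂) * C4 * (2 * 16 ^ 8 * (16 ^ 8 / 16 ^ 40)) ^ h := by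
          have z1 : (16 : ℝ) ^ k = 16 ^ i * (16 ^ s₂ * 16 ^ (4 * h)) := by
            rw [hki, hs, pow_add, pow_add]
          have z2 : (16 : ℝ) ^ s = 16 ^ s₂ * 16 ^ (4 * h) := by rw [hs, pow_add]
          have z3 : (16 : ℝ) ^ (8 * h) = (16 ^ (4 * h)) ^ 2 := by
            rw [← pow_mul]
            congr 1
            ring
          have z4 : (16 : ℝ) ^ (2 * s₂) = (16 ^ s₂) ^ 2 := by
            rw [← pow_mul]
            congr 1
            ring
          rw [z1, z2, mul_pow, mul_pow, div_pow, ← pow_mul, ← pow_mul, z3, z4]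
          generalize (16 : ℝ) ^ (4 * h) = x
          generalize (16 : ℝ) ^ (40 * h) = y
          generalize (16 : ℝ) ^ s₂ = z
          have hz : (16 : ℝ) ^ i ≠ 0 := hp16.ne'
          field_simp
      _ ≤ 4 * 16 ^ (2 * s₂) * C4 * (1 / 2) ^ h := by
          apply mul_le_mul_of_nonneg_left _ (by positivity)
          exact pow_le_pow_left₀ (by positivity) (by norm_num) h
  have hexp : ∀ c : ℝ, min c1 (1 / 2) ≤ c →
      Real.exp (-(c * h)) ≤ Real.exp (-(min c1 (1 / 2) * h)) := by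
    intro c hc
    apply Real.exp_le_exp.2
    have : min c1 (1 / 2) * (h : ℝ) ≤ c * h :=
      mul_le_mul_of_nonneg_right hc (Nat.cast_nonneg h)
    linarith
  have x1 := hexp c1 (min_le_left _ _)
  have x2 := (half_exp h).trans (hexp (1 / 2) (min_le_right _ _))
  set e := Real.exp (-(min c1 (1 / 2) * h)) with he
  have he0 : 0 < e := Real.exp_pos _
  refine (add_le_add hE1 le_rfl).trans ?_
  have hβ0 : 0 ≤ β := by
    rw [hβ, hlen]
    positivity
  have hNr : (1 : ℝ) ≤ N := by exact_mod_cast hN1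
  rw [← ENNReal.ofReal_add (by positivity) (by positivity)]
  apply ENNReal.ofReal_le_ofReal
  have y1 : C5 * (1 / 2) ^ h ≤ C5 * e := mul_le_mul_of_nonneg_left x2 hC5.le
  have y2 : 4 * 16 ^ (2 * s₂) * C4 * (1 / 2) ^ h ≤ 4 * 16 ^ (2 * s₂) * C4 * e :=
    mul_le_mul_of_nonneg_left x2 (by positivity)
  have y3 : C1 * Real.exp (-(c1 * h)) ≤ C1 * e := mul_le_mul_of_nonneg_left x1 hC1.le
  have y4 : C2 * (1 / 2) ^ h ≤ C2 * e := mul_le_mul_of_nonneg_left x2 hC2.le
  calc _ ≤ (C5 * e + 4 * 16 ^ (2 * s₂) * C4 * e) + (3 * (C1 * e) + 81 * (C2 * e)) := by linarith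
    _ = _ := by ring

end Pool.Agent.H74.STP
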