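import Pool.Agent.H97.ST.Targets

/-!
# Modules STP and LST: one step of the telescoping, last step
-/

set_option autoImplicit false

open MeasureTheory ProbabilityTheory Filter Topology
open scoped ENNReal

namespace Pool.Agent.H74.STP

open Pool.Agent.H99.NS Pool.Agent.H22.LPP Pool.Agent.H97.NF Pool.Agent.H97.ST
open Pool.Agent.H95.INS (Near)

/-- the bound of `I_NT` for given constants -/
def NT (q C c c' : ℝ) (s₁ k₀ : ℕ) : Prop := ∀ k : ℕ, k₀ ≤ k →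
  ∀ j : ℤ, Mid k j → ∀ a h : ℕ, k ≤ 30 * a → a + 4 * h + s₁ ≤ k → (h : ℝ) ≤ c' * k →
  PE q {ω | TieU k ω j a (4 ^ a / 4 ^ h)} ≤ ENNReal.ofReal (C * Real.exp (-(c * h))) ∧
  PE q {ω | TieD k ω j a (4 ^ a / 4 ^ h)} ≤ ENNReal.ofReal (C * Real.exp (-(c * h))) ∧
  PE q {ω | TieF k ω j a (4 ^ a / 4 ^ h)} ≤ ENNReal.ofReal (C * Real.exp (-(c * h)))

/-- the bound of `I_REG` for given constants -/
def RG (q C c' : ℝ) (s₁ k₀ : ℕ) : Prop := ∀ k : ℕ, k₀ ≤ k →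
  ∀ j : ℤ, |j| ≤ 20 * 64 ^ (k - 1) → ∀ a h : ℕ, k ≤ 30 * a → a + 4 * h + s₁ ≤ k →
  (h : ℝ) ≤ c' * k →
  PE q {ω | ¬ Rdis k ω j a h} ≤ ENNReal.ofReal (C * (1 / 4) ^ h) ∧
  (a + 9 * h + s₁ ≤ k → PE q {ω | ¬ RLow k ω j a h} ≤ ENNReal.ofReal (C * (1 / 4) ^ h) ∧
    PE q {ω | ¬ RUp k ω j a h} ≤ ENNReal.ofReal (C * (1 / 4) ^ h))

theorem near_mono {ω : Env} {o e : Site} {g g' : ℝ} {γ : ℤ → ℤ} (hg : g ≤ g')
    (h : Near ω o e g γ) : Near ω o e g' γ :=
  ⟨h.1, by linarith [h.2]⟩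

theorem tieF_mono {k : ℕ} {ω : Env} {j : ℤ} {a : ℕ} {g g' : ℝ} (hg : g ≤ g')
    (h : TieF k ω j a g) : TieF k ω j a g' := by
  obtain ⟨γ, h1, h2⟩ := h
  exact ⟨γ, near_mono hg h1, h2⟩

theorem core (hA : T_AEQ) (hD : T_DET7) (hT : T_TRF) (hL : B_LAMM) (q : ℝ)
    {C1 c1 c1' C2 c2' : ℝ} {s1 k1 s2 k2 : ℕ} (hC1 : 0 < C1) (hC2 : 0 < C2)
    (hNT : NT q C1 c1 c1' s1 k1) (hRG : RG q C2 c2' s2 k2)
    (k : ℕ) (hk1 : k1 ≤ k) (hk2 : k2 ≤ k) (j : ℤ) (hj : Mid k j) (i h : ℕ) (hi20 : k ≤ 20 * i)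
    (hi1 : i + 4 * h + s1 ≤ k) (hi2 : i + 4 * h + s2 ≤ k) (hh : 1 ≤ h) (hc1 : (h : ℝ) ≤ c1' * k)
    (hc2 : (h : ℝ) ≤ c2' * k) (h300 : 300 * h ≤ k) (h60 : 60 ≤ k) (hik : i + 1 ≤ k)
    (ρ : ℤ → Site → ℝ) (hρ : ∀ m x, x ∈ BoxW j i m (Rm h i) → ρ m x = 0) :
    ∑' m : ℤ, PN q (ρ m)
      {E | Lk k (eA E) j ∈ Win i m ∧ Lk k (eB E) j ≠ Lk k (eA E) j} ≤
    (∑' m : ℤ, PN q (ρ m)
      {E | Lk k (eA E) j ∈ Win i m ∧ ¬ Close k (eA E) (eB E) j i h m}) +
      ENNReal.ofReal (3 * (C1 * Real.exp (-(c1 * h))) + 81 * (C2 * (1 / 2) ^ h)) := by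
  have hi5 : 5 * h + 1 ≤ i := by omega
  have hi3 : 3 ≤ i := by omega
  have hmL : Measurable (fun ω => Lk k ω j) := (hL (oK k) (eK k) j).2.1
  set Z1 : Env → Prop := fun ω => TieU k ω j (i - 1) (gi i h) ∨ TieD k ω j (i - 1) (gi i h) ∨
    TieF k ω j i (gi i h) with hZ1
  have step : ∀ m : ℤ, PN q (ρ m)
      {E | Lk k (eA E) j ∈ Win i m ∧ Lk k (eB E) j ≠ Lk k (eA E) j} ≤
      PN q (ρ m) {E | Lk k (eA E) j ∈ Win i m ∧ ¬ Close k (eA E) (eB E) j i h m} +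
      (PN q (ρ m) {E | Lk k (eA E) j ∈ Win i m ∧ Z1 (eA E)} +
      (PN q (ρ m) {E | Lk k (eA E) j ∈ Win i m ∧ ¬ Rdis k (eA E) j i h} +
      PN q (ρ m) {E | Lk k (eA E) j ∈ Win i m ∧
        |Lk k (eB E) j - Lk k (eA E) j| ≤ 4 * 2 ^ h * 16 ^ i ∧ ¬ Reg k (eB E) j i h})) := by
    intro m
    have hae : PN q (ρ m)
      {E | Lk k (eA E) j ∈ Win i m ∧ Lk k (eB E) j ≠ Lk k (eA E) j} ≤
      PN q (ρ m) ({E | Lk k (eA E) j ∈ Win i m ∧ ¬ Close k (eA E) (eB E) j i h m} ∪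
      ({E | Lk k (eA E) j ∈ Win i m ∧ Z1 (eA E)} ∪
      ({E | Lk k (eA E) j ∈ Win i m ∧ ¬ Rdis k (eA E) j i h} ∪
      {E | Lk k (eA E) j ∈ Win i m ∧
        |Lk k (eB E) j - Lk k (eA E) j| ≤ 4 * 2 ^ h * 16 ^ i ∧ ¬ Reg k (eB E) j i h}))) := by
      apply measure_mono_ae
      filter_upwards [hA q (ρ m)] with E hE
      intro hEv
      obtain ⟨e1, e2⟩ := hEv
      by_cases f1 : Close k (eA E) (eB E) j i h m
      swap
      · exact Or.inl ⟨e1, f1⟩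
      by_cases f2 : Rdis k (eA E) j i h
      swap
      · exact Or.inr (Or.inr (Or.inl ⟨e1, f2⟩))
      by_cases f3 : |Lk k (eB E) j - Lk k (eA E) j| ≤ 4 * 2 ^ h * 16 ^ i → Reg k (eB E) j i h
      swap
      · push Not at f3
        exact Or.inr (Or.inr (Or.inr ⟨e1, f3.1, f3.2⟩))
      have := hD k i h (eA E) (eB E) j m hh hi5 hik hj e1 e2
        (fun s hs => hE s (hρ m s hs)) f1 f2 f3
      exact Or.inr (Or.inl ⟨e1, this⟩)
    refine hae.trans ((measure_union_le _ _).trans (add_le_add le_rfl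
      ((measure_union_le _ _).trans (add_le_add le_rfl (measure_union_le _ _)))))
  refine (ENNReal.tsum_le_tsum step).trans ?_
  rw [ENNReal.tsum_add, ENNReal.tsum_add, ENNReal.tsum_add]
  refine add_le_add le_rfl ?_
  have hj20 : |j| ≤ 20 * 64 ^ (k - 1) := by
    have hp : (0 : ℤ) < 64 ^ (k - 1) := by positivity
    unfold Mid at hj
    linarith
  -- E2
  have b2 : ∑' m : ℤ, PN q (ρ m) {E | Lk k (eA E) j ∈ Win i m ∧ Z1 (eA E)} ≤
      ENNReal.ofReal (3 * (C1 * Real.exp (-(c1 * h)))) := by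
    refine ((hT q (fun ω => Lk k ω j) Z1 i h ρ hmL).2).trans ?_
    have n1 := hNT k hk1 j hj (i - 1) h (by omega) (by omega) hc1
    have n2 := hNT k hk1 j hj i h (by omega) (by omega) hc1
    have hsub : {ω | Z1 ω} ⊆ {ω | TieU k ω j (i - 1) (4 ^ (i - 1) / 4 ^ h)} ∪
        ({ω | TieD k ω j (i - 1) (4 ^ (i - 1) / 4 ^ h)} ∪ {ω | TieF k ω j i (4 ^ i / 4 ^ h)}) := by
      rintro ω (h1 | h1 | h1)
      · exact Or.inl h1
      · exact Or.inr (Or.inl h1)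
      · refine Or.inr (Or.inr (tieF_mono ?_ h1))
        unfold gi
        apply div_le_div_of_nonneg_right _ (by positivity)
        exact pow_le_pow_right₀ (by norm_num) (by omega)
    refine (measure_mono hsub).trans ((measure_union_le _ _).trans (le_trans (add_le_add n1.1
      ((measure_union_le _ _).trans (add_le_add n1.2.1 n2.2.2))) ?_))
    have h0 : 0 ≤ C1 * Real.exp (-(c1 * h)) := by positivity
    rw [← ENNReal.ofReal_add h0 h0, ← ENNReal.ofReal_add h0 (by positivity)]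
    apply ENNReal.ofReal_le_ofReal
    linarith
  have hq : (1 / 4 : ℝ) ^ h ≤ (1 / 2) ^ h := pow_le_pow_left₀ (by norm_num) (by norm_num) h
  -- E3
  have b3 : ∑' m : ℤ, PN q (ρ m) {E | Lk k (eA E) j ∈ Win i m ∧ ¬ Rdis k (eA E) j i h} ≤
      ENNReal.ofReal (C2 * (1 / 2) ^ h) := by
    refine ((hT q (fun ω => Lk k ω j) (fun ω => ¬ Rdis k ω j i h) i h ρ hmL).2).trans ?_
    refine (hRG k hk2 j hj20 i h (by omega) (by omega) hc2).1.trans ?_
    apply ENNReal.ofReal_le_ofReal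
    exact mul_le_mul_of_nonneg_left hq hC2.le
  -- E4
  have b4 : ∑' m : ℤ, PN q (ρ m) {E | Lk k (eA E) j ∈ Win i m ∧
        |Lk k (eB E) j - Lk k (eA E) j| ≤ 4 * 2 ^ h * 16 ^ i ∧ ¬ Reg k (eB E) j i h} ≤
      ENNReal.ofReal (80 * (C2 * (1 / 2) ^ h)) := by
    refine ((hT q (fun ω => Lk k ω j) (fun ω => ¬ Reg k ω j i h) i h ρ hmL).1).trans ?_
    have hp : (0 : ℤ) < 64 ^ (k - 1) := by positivity
    have hp2 : (64 : ℤ) ^ (i - 1) ≤ 64 ^ (k - 1) := pow_le_pow_right₀ (by norm_num) (by omega)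
    have hp3 : (0 : ℤ) < 64 ^ (i - 1) := by positivity
    have hjj := abs_le.1 hj
    have r1 := (hRG k hk2 j hj20 i h (by omega) (by omega) hc2).1
    have r2 := (hRG k hk2 j hj20 (i - 5 * h) h (by omega) (by omega) hc2).2 (by omega)
    have r3 := (hRG k hk2 (j + 64 ^ (i - 1)) (by rw [abs_le]; constructor <;> linarith)
      (i - 5 * h) h (by omega) (by omega) hc2).2 (by omega)
    have r4 := (hRG k hk2 (j - 64 ^ (i - 1)) (by rw [abs_le]; constructor <;> linarith)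
      (i - 5 * h) h (by omega) (by omega) hc2).2 (by omega)
    have hsub : {ω | ¬ Reg k ω j i h} ⊆ {ω | ¬ Rdis k ω j i h} ∪
        ({ω | ¬ RLow k ω j (i - 5 * h) h} ∪ ({ω | ¬ RUp k ω j (i - 5 * h) h} ∪
        ({ω | ¬ RUp k ω (j + 64 ^ (i - 1)) (i - 5 * h) h} ∪
        {ω | ¬ RLow k ω (j - 64 ^ (i - 1)) (i - 5 * h) h}))) := by
      intro ω hω
      by_contra hcon
      simp only [Set.mem_union, Set.mem_setOf_eq, not_or, not_not] at hcon
      exact hω ⟨hcon.1, hcon.2.1, hcon.2.2.1, hcon.2.2.2.1, hcon.2.2.2.2⟩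
    have hs : PE q {ω | ¬ Reg k ω j i h} ≤ ENNReal.ofReal (5 * (C2 * (1 / 4) ^ h)) := by
      refine (measure_mono hsub).trans ((measure_union_le _ _).trans (le_trans (add_le_add r1
        ((measure_union_le _ _).trans (add_le_add r2.1 ((measure_union_le _ _).trans
          (add_le_add r2.2 ((measure_union_le _ _).trans (add_le_add r3.2 r4.1))))))) ?_))
      have h0 : 0 ≤ C2 * (1 / 4 : ℝ) ^ h := by positivity
      rw [← ENNReal.ofReal_add h0 h0, ← ENNReal.ofReal_add h0 (by positivity),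
        ← ENNReal.ofReal_add h0 (by positivity), ← ENNReal.ofReal_add h0 (by positivity)]
      apply ENNReal.ofReal_le_ofReal
      linarith
    refine (mul_le_mul' le_rfl hs).trans ?_
    rw [← ENNReal.ofReal_mul (by positivity)]
    apply ENNReal.ofReal_le_ofReal
    have : (2 : ℝ) ^ h * (1 / 4) ^ h = (1 / 2) ^ h := by
      rw [← mul_pow]
      norm_num
    rw [← this]
    apply le_of_eq
    ring
  have h0 : 0 ≤ C1 * Real.exp (-(c1 * h)) := by positivity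
  have h0' : 0 ≤ C2 * (1 / 2 : ℝ) ^ h := by positivity
  calc _ ≤ ENNReal.ofReal (3 * (C1 * Real.exp (-(c1 * h)))) +
        (ENNReal.ofReal (C2 * (1 / 2) ^ h) + ENNReal.ofReal (80 * (C2 * (1 / 2) ^ h))) :=
        add_le_add b2 (add_le_add b3 b4)
    _ = _ := by
        rw [← ENNReal.ofReal_add h0' (by positivity), ← ENNReal.ofReal_add (by positivity)
          (by positivity)]
        congr 1
        ring

/-! ### measurability of `Close` -/

/-- the finite set of sites used -/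
def sitesK (k : ℕ) : Set Site :=
  {x | (oK k).1 < x.1 ∧ x.1 ≤ (eK k).1 ∧ |x.2| ≤ 64 * 64 ^ (k - 1)}

theorem sitesK_finite (k : ℕ) : (sitesK k).Finite := by
  refine Set.Finite.subset (Finset.finite_toSet
    (Finset.Icc ((oK k).1, -(64 * 64 ^ (k - 1) : ℤ)) ((eK k).1, (64 * 64 ^ (k - 1) : ℤ)))) ?_
  rintro x ⟨h1, h2, h3⟩
  rw [abs_le] at h3
  rw [Finset.coe_Icc, Set.mem_Icc, Prod.le_def, Prod.le_def]
  exact ⟨⟨h1.le, h3.1⟩, h2, h3.2⟩

theorem mem_sitesK_of_o (k : ℕ) {x : Site} (h1 : (oK k).1 < x.1) (h2 : Reach (oK k) x)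
    (h3 : x.1 ≤ (eK k).1) : x ∈ sitesK k := by
  refine ⟨h1, h3, ?_⟩
  have h4 := h2.1
  have e1 : (oK k).2 = 0 := rfl
  have e2 : (oK k).1 = -(32 * 64 ^ (k - 1)) := rfl
  have e3 : (eK k).1 = 32 * 64 ^ (k - 1) := rfl
  rw [e1, sub_zero] at h4
  rw [e2] at h4
  rw [e3] at h3
  linarith

theorem mem_sitesK_of_e (k : ℕ) {x : Site} (h1 : (oK k).1 < x.1) (h2 : Reach x (eK k)) :
    x ∈ sitesK k := by
  refine ⟨h1, reach_le h2, ?_⟩
  have h4 := h2.1
  have e1 : (eK k).2 = 0 := rfl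
  have e2 : (oK k).1 = -(32 * 64 ^ (k - 1)) := rfl
  have e3 : (eK k).1 = 32 * 64 ^ (k - 1) := rfl
  rw [e1, zero_sub, abs_neg] at h4
  rw [e3] at h4
  rw [e2] at h1
  linarith

theorem T_lo_congr (k : ℕ) {A A' : Env} (h : ∀ x ∈ sitesK k, A x = A' x) (s v : ℤ)
    (hs : s ≤ (eK k).1) : T A (oK k) (s, v) = T A' (oK k) (s, v) := by
  apply T_congr
  rintro x ⟨h1, h2, h3⟩
  exact h x (mem_sitesK_of_o k h1 h2 ((reach_le h3).trans hs))

theorem T_up_congr (k : ℕ) {A A' : Env} (h : ∀ x ∈ sitesK k, A x = A' x) (s v : ℤ)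
    (hs : (oK k).1 ≤ s) : T A (s, v) (eK k) = T A' (s, v) (eK k) := by
  apply T_congr
  rintro x ⟨h1, h2, h3⟩
  exact h x (mem_sitesK_of_e k (lt_of_le_of_lt hs h1) h3)

theorem Tfar_congr (k : ℕ) {A A' : Env} (h : ∀ x ∈ sitesK k, A x = A' x) (j : ℤ) (i hh : ℕ)
    (m : ℤ) : Tfar k A j i hh m = Tfar k A' j i hh m := by
  unfold Tfar
  have key : ∀ γ, Conn (oK k) (eK k) γ →
      wt A (oK k).1 (eK k).1 γ = wt A' (oK k).1 (eK k).1 γ := by
    intro γ hγ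
    apply wt_congr
    intro r hr1 hr2
    exact h _ (mem_sitesK_of_o k hr1 ((hγ.left hr2).reach hr1.le) hr2)
  congr 1
  ext x
  constructor
  · rintro ⟨γ, h1, h2, h3⟩
    exact ⟨γ, h1, h2, by rw [h3, key γ h1]⟩
  · rintro ⟨γ, h1, h2, h3⟩
    exact ⟨γ, h1, h2, by rw [h3, key γ h1]⟩

theorem close_congr (k i hh : ℕ) (h1 : 1 ≤ hh) (hi : 5 * hh + 1 ≤ i) (hk : i + 1 ≤ k) (j m : ℤ)
    (hj : Mid k j) {A A' B B' : Env} (hA : ∀ x ∈ sitesK k, A x = A' x)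
    (hB : ∀ x ∈ sitesK k, B x = B' x) (h : Close k A B j i hh m) : Close k A' B' j i hh m := by
  have hp1 : (64 : ℤ) ^ (i - 1) ≤ 64 ^ (k - 1) := pow_le_pow_right₀ (by norm_num) (by omega)
  have hp2 : hv (i - 5 * hh) ≤ 64 ^ (k - 1) := by
    have e1 : (64 : ℤ) ^ (i - 5 * hh - 1 + 1) ≤ 64 ^ (k - 1) :=
      pow_le_pow_right₀ (by norm_num) (by omega)
    have e2 : (0 : ℤ) < 64 ^ (i - 5 * hh - 1) := by positivity
    rw [pow_succ] at e1
    unfold hv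
    linarith
  have hp3 : (0 : ℤ) < 64 ^ (i - 1) := by positivity
  have hp4 : (0 : ℤ) < hv (i - 5 * hh) := by
    unfold hv
    positivity
  have hp : (0 : ℤ) < 64 ^ (k - 1) := by positivity
  have hjj := abs_le.1 hj
  have e2 : (oK k).1 = -(32 * 64 ^ (k - 1)) := rfl
  have e3 : (eK k).1 = 32 * 64 ^ (k - 1) := rfl
  have hT : ∀ {A A' : Env}, (∀ x ∈ sitesK k, A x = A' x) →
      T A (oK k) (eK k) = T A' (oK k) (eK k) := by
    intro A A' hA
    exact T_lo_congr k hA _ _ le_rfl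
  refine ⟨?_, ?_, ?_, ?_⟩
  · rw [← hT hA, ← hT hB]
    exact h.t
  · rw [← Tfar_congr k hA, ← Tfar_congr k hB]
    exact h.f
  · intro s hs v hv1 hv2
    have hs' : s ≤ (eK k).1 := by
      rw [e3]
      rcases hs with rfl | rfl <;> linarith
    rw [← T_lo_congr k hA s v hs', ← T_lo_congr k hB s v hs']
    exact h.lo s hs v hv1 hv2
  · intro s hs v hv1 hv2
    have hs' : (oK k).1 ≤ s := by
      rw [e2]
      rcases hs with rfl | rfl <;> linarith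
    rw [← T_up_congr k hA s v hs', ← T_up_congr k hB s v hs']
    exact h.up s hs v hv1 hv2

theorem close_meas (hF : T_FIMP) (k i hh : ℕ) (h1 : 1 ≤ hh) (hi : 5 * hh + 1 ≤ i)
    (hk : i + 1 ≤ k) (j m : ℤ) (hj : Mid k j) :
    MeasurableSet {E : PEnv | ¬ Close k (eA E) (eB E) j i hh m} := by
  refine hF (β := ℕ × ℕ) (sitesK k) (fun E => ¬ Close k (eA E) (eB E) j i hh m)
    (sitesK_finite k) (fun E E' hE => not_congr ⟨fun h => ?_, fun h => ?_⟩)
  · exact close_congr k i hh h1 hi hk j m hj (fun x hx => by unfold eA; rw [hE x hx])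
      (fun x hx => by unfold eB; rw [hE x hx]) h
  · exact close_congr k i hh h1 hi hk j m hj (fun x hx => by unfold eA; rw [hE x hx])
      (fun x hx => by unfold eB; rw [hE x hx]) h

theorem rhoS_props (r : ℝ) (h0 : 0 ≤ r) (h1 : r ≤ 1) (S : Set Site) (x : Site) :
    0 ≤ rhoS r S x ∧ rhoS r S x ≤ r ∧ rhoS r S x ≤ 1 := by
  unfold rhoS
  split_ifs
  · exact ⟨h0, le_rfl, h1⟩
  · exact ⟨le_rfl, h0, zero_le_one⟩

theorem rhoS_ne {r : ℝ} {S : Set Site} {x : Site} (h : rhoS r S x ≠ 0) : x ∈ S := by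
  by_contra hx
  exact h (by unfold rhoS; rw [if_neg hx])

theorem rhoS_zero {r : ℝ} {S : Set Site} {x : Site} (h : x ∉ S) : rhoS r S x = 0 := by
  unfold rhoS
  rw [if_neg h]

theorem r_le_one {r : ℝ} (h0 : 0 ≤ r) (i h : ℕ) (hr : r * 64 ^ i * 16 ^ (40 * h) ≤ 16 ^ i) :
    r ≤ 1 := by
  have h1 : (16 : ℝ) ^ i ≤ 64 ^ i := pow_le_pow_left₀ (by norm_num) (by norm_num) i
  have h2 : (1 : ℝ) ≤ 16 ^ (40 * h) := one_le_pow₀ (by norm_num)
  have h3 : r * 64 ^ i ≤ r * 64 ^ i * 16 ^ (40 * h) := le_mul_of_one_le_right (by positivity) h2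
  have h4 : r * 64 ^ i ≤ 1 * 64 ^ i := by linarith
  exact le_of_mul_le_mul_right h4 (by positivity)

theorem half_exp (h : ℕ) : (1 / 2 : ℝ) ^ h ≤ Real.exp (-(1 / 2 * h)) := by
  have h1 : (1 / 2 : ℝ) ≤ Real.exp (-(1 / 2)) := by
    have := Real.add_one_le_exp (-(1 / 2 : ℝ))
    linarith
  calc (1 / 2 : ℝ) ^ h ≤ Real.exp (-(1 / 2)) ^ h := pow_le_pow_left₀ (by norm_num) h1 h
    _ = Real.exp (-(1 / 2 * h)) := by
      rw [← Real.exp_nat_mul]
      congr 1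
      ring

theorem pf_STP (hW : T_WIN) (hF : T_FIMP) (hA : T_AEQ) (hD : T_DET7) (hC : T_CLO) (hT : T_TRF)
    (hL : B_LAMM) : T_STP := by
  intro q hq0 hq1 iNT iREG iPALM
  obtain ⟨C1, c1, c1', s1, k1, hC1, hc1, hc1', hNT⟩ := iNT
  obtain ⟨C2, c2', s2, k2, hC2, hc2', hRG⟩ := iREG
  obtain ⟨C3, c3, c3', s3, k3, hC3, hc3, hc3', hPA⟩ := iPALM
  obtain ⟨C4, hC4, hCL⟩ := hC q hq0 hq1
  refine ⟨C3 * (√(65 * C4) + 1) + 3 * C1 + 81 * C2, min (min c1 c3) (1 / 2),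
    min (min c1' c2') (min c3' (1 / 300)), max (max s1 s2) s3 + 1, max (max k1 k2) (max k3 60),
    by positivity, by positivity, by positivity, ?_⟩
  intro k hk j hj i h h' hki hik hh hh' hhc r hr0 hr
  have hkk : (0 : ℝ) ≤ k := Nat.cast_nonneg k
  have a1 : (h : ℝ) ≤ c1' * k := hhc.trans (mul_le_mul_of_nonneg_right
    ((min_le_left _ _).trans (min_le_left _ _)) hkk)
  have a2 : (h : ℝ) ≤ c2' * k := hhc.trans (mul_le_mul_of_nonneg_right
    ((min_le_left _ _).trans (min_le_right _ _)) hkk)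
  have a3 : (h : ℝ) ≤ c3' * k := hhc.trans (mul_le_mul_of_nonneg_right
    ((min_le_right _ _).trans (min_le_left _ _)) hkk)
  have a4 : (h : ℝ) ≤ 1 / 300 * k := hhc.trans (mul_le_mul_of_nonneg_right
    ((min_le_right _ _).trans (min_le_right _ _)) hkk)
  have h300 : 300 * h ≤ k := by
    have : (300 : ℝ) * h ≤ k := by linarith
    exact_mod_cast this
  have h60 : 60 ≤ k := by omega
  have hik1 : i + 1 ≤ k := by omega
  have hi5 : 5 * h + 1 ≤ i := by omega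
  have hr1 := r_le_one hr0 i h hr
  set ρ : ℤ → Site → ℝ := fun m =>
    rhoS r (BoxW j (i + 1) (m / 16) (Rm h' (i + 1)) \ BoxW j i m (Rm h i)) with hρ
  have hcore := core hA hD hT hL q hC1 hC2 hNT hRG k (by omega) (by omega) j hj i h hki
    (by omega) (by omega) hh a1 a2 h300 h60 hik1 ρ
    (fun m x hx => rhoS_zero (fun hx' => hx'.2 hx))
  refine hcore.trans ?_
  have hRm : Rm h' (i + 1) ≤ Rm h (i + 1) := by
    unfold Rm
    have : (2 : ℤ) ^ h' ≤ 2 ^ h := pow_le_pow_right₀ (by norm_num) hh'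
    have hp : (0 : ℤ) < 16 ^ (i + 1) := by positivity
    apply mul_le_mul_of_nonneg_right _ hp.le
    linarith
  -- E1
  set β : ℝ := C4 * (r * (((j + 32 * 64 ^ i) - (j - 32 * 64 ^ i - 1) : ℤ) : ℝ)) * 16 ^ (8 * h) /
    16 ^ i with hβ
  have hlen : (((j + 32 * 64 ^ i) - (j - 32 * 64 ^ i - 1) : ℤ) : ℝ) = 64 * 64 ^ i + 1 := by
    push_cast
    ring
  have hβ0 : 0 ≤ β := by
    rw [hβ, hlen]
    positivity
  have hE1 := hPA k (by omega) j hj i h hki (by omega) a3 ρ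
    (fun m E => ¬ Close k (eA E) (eB E) j i h m) β hβ0
    (fun m x => ⟨(rhoS_props r hr0 hr1 _ x).1, (rhoS_props r hr0 hr1 _ x).2.2⟩)
    (fun m x hx => rhoS_zero (fun hx' => hx (hW.2.2.1 _ _ _ _ _ hRm hx'.1)))
    (fun m => close_meas hF k i h hh hi5 hik1 j m hj)
    (fun m S hS out => by
      refine (hCL k i h j m hh hi5 hik1 hj S out (ρ m) r (j - 32 * 64 ^ i - 1)
        (j + 32 * 64 ^ i) (fun x => rhoS_props r hr0 hr1 _ x) ?_ ?_)
      · have hp : (0 : ℤ) < 64 ^ i := by positivity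
        linarith
      · intro x hx _ _
        have hx1 := (rhoS_ne hx).1.1
        have hx2 : 2 * |x.1 - j| ≤ 64 ^ (i + 1) := hx1
        rw [pow_succ] at hx2
        have hx3 : |x.1 - j| ≤ 32 * 64 ^ i := by linarith
        rw [abs_le] at hx3
        constructor <;> linarith [hx3.1, hx3.2])
  have hX : 256 ^ h * √β ≤ √(65 * C4) * (1 / 2) ^ h := by
    have hβ1 : β ≤ 65 * C4 * ((1 / 16) ^ (16 * h)) ^ 2 := by
      rw [hβ, hlen]
      have e1 : (64 * 64 ^ i + 1 : ℝ) ≤ 65 * 64 ^ i := by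
        have : (1 : ℝ) ≤ 64 ^ i := one_le_pow₀ (by norm_num)
        linarith
      have e2 : C4 * (r * (64 * 64 ^ i + 1)) * 16 ^ (8 * h) / 16 ^ i ≤
          C4 * (r * (65 * 64 ^ i)) * 16 ^ (8 * h) / 16 ^ i := by
        apply div_le_div_of_nonneg_right _ (by positivity)
        apply mul_le_mul_of_nonneg_right _ (by positivity)
        exact mul_le_mul_of_nonneg_left (mul_le_mul_of_nonneg_left e1 hr0) hC4.le
      refine e2.trans ?_
      have e3 : ((1 / 16 : ℝ) ^ (16 * h)) ^ 2 = 16 ^ (8 * h) / 16 ^ (40 * h) := by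
        rw [← pow_mul, eq_div_iff (by positivity), one_div, inv_pow, inv_mul_eq_iff_eq_mul₀
          (by positivity), ← pow_add]
        congr 1
        ring
      rw [e3]
      have e4 : r * 64 ^ i ≤ 16 ^ i / 16 ^ (40 * h) := by
        rw [le_div_iff₀ (by positivity)]
        exact hr
      calc C4 * (r * (65 * 64 ^ i)) * 16 ^ (8 * h) / 16 ^ i
          = 65 * C4 * 16 ^ (8 * h) / 16 ^ i * (r * 64 ^ i) := by ring
        _ ≤ 65 * C4 * 16 ^ (8 * h) / 16 ^ i * (16 ^ i / 16 ^ (40 * h)) :=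
            mul_le_mul_of_nonneg_left e4 (by positivity)
        _ = 65 * C4 * (16 ^ (8 * h) / 16 ^ (40 * h)) := by
            field_simp
    have hs : √β ≤ √(65 * C4) * (1 / 16) ^ (16 * h) := by
      calc √β ≤ √(65 * C4 * ((1 / 16) ^ (16 * h)) ^ 2) := Real.sqrt_le_sqrt hβ1
        _ = √(65 * C4) * (1 / 16) ^ (16 * h) := by
          rw [Real.sqrt_mul (by positivity), Real.sqrt_sq (by positivity)]
    calc (256 : ℝ) ^ h * √β ≤ 256 ^ h * (√(65 * C4) * (1 / 16) ^ (16 * h)) :=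
          mul_le_mul_of_nonneg_left hs (by positivity)
      _ = √(65 * C4) * (256 * (1 / 16) ^ 16) ^ h := by
          rw [mul_pow, ← pow_mul]
          ring
      _ ≤ √(65 * C4) * (1 / 2) ^ h := by
          apply mul_le_mul_of_nonneg_left _ (Real.sqrt_nonneg _)
          exact pow_le_pow_left₀ (by positivity) (by norm_num) h
  have hexp : ∀ c : ℝ, min (min c1 c3) (1 / 2) ≤ c →
      Real.exp (-(c * h)) ≤ Real.exp (-(min (min c1 c3) (1 / 2) * h)) := by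
    intro c hc
    apply Real.exp_le_exp.2
    have : min (min c1 c3) (1 / 2) * (h : ℝ) ≤ c * h :=
      mul_le_mul_of_nonneg_right hc (Nat.cast_nonneg h)
    linarith
  have x1 := hexp c1 ((min_le_left _ _).trans (min_le_left _ _))
  have x3 := hexp c3 ((min_le_left _ _).trans (min_le_right _ _))
  have x2 := (half_exp h).trans (hexp (1 / 2) (min_le_right _ _))
  set e := Real.exp (-(min (min c1 c3) (1 / 2) * h)) with he
  refine (add_le_add hE1 le_rfl).trans ?_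
  rw [← ENNReal.ofReal_add (by positivity) (by positivity)]
  apply ENNReal.ofReal_le_ofReal
  have he0 : 0 < e := Real.exp_pos _
  have y1 : 256 ^ h * √β + Real.exp (-(c3 * h)) ≤ (√(65 * C4) + 1) * e := by
    have : √(65 * C4) * (1 / 2) ^ h ≤ √(65 * C4) * e :=
      mul_le_mul_of_nonneg_left x2 (Real.sqrt_nonneg _)
    linarith
  have y2 : C3 * (256 ^ h * √β + Real.exp (-(c3 * h))) ≤ C3 * ((√(65 * C4) + 1) * e) :=
    mul_le_mul_of_nonneg_left y1 hC3.le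
  have y3 : C1 * Real.exp (-(c1 * h)) ≤ C1 * e := mul_le_mul_of_nonneg_left x1 hC1.le
  have y4 : C2 * (1 / 2) ^ h ≤ C2 * e := mul_le_mul_of_nonneg_left x2 hC2.le
  calc _ ≤ C3 * ((√(65 * C4) + 1) * e) + (3 * (C1 * e) + 81 * (C2 * e)) := by linarith
    _ = _ := by ring

end Pool.Agent.H74.STP
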